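import Mathlib

set_option autoImplicit false
set_option maxHeartbeats 400000

namespace Pool.Agent.Results.MP_c9edc3_al.NotRF

/-- The graph of the map `a ↦ h a g` on `D_{g,h}`. -/
def phi {S : Type} [Monoid S] (g h : S) : S → S → Prop :=
  fun a b => g * h * a = a ∧ a * (g * h) = a ∧ b = h * a * g

/-- The graphs of the elements of `Inn(S)`. -/
inductive Inn {S : Type} [Monoid S] : (S → S → Prop) → Prop
  | gen (g h : S) : Inn (phi g h)
  | comp {α β : S → S → Prop} : Inn α → Inn β → Inn (Relation.Comp α β)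

@[ext] structure W (A : Type) where
  c : Bool
  a : A

instance (A : Type) [AddCommGroup A] : Monoid (W A) where
  mul x y := ⟨x.c || y.c, if x.c then x.a else x.a + y.a⟩
  one := ⟨false, 0⟩
  mul_assoc x y z := W.ext (Bool.or_assoc _ _ _) (by
    change (if (x.c || y.c) then (if x.c then x.a else x.a + y.a) else
      (if x.c then x.a else x.a + y.a) + z.a) =
      if x.c then x.a else x.a + if y.c then y.a else y.a + z.a
    cases x.c <;> cases y.c <;> simp [add_assoc])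
  one_mul x := W.ext rfl (zero_add _)
  mul_one x := W.ext (Bool.or_false _) (by
    change (if x.c then x.a else x.a + 0) = x.a
    simp)

theorem mul_def {A : Type} [AddCommGroup A] (x y : W A) :
    x * y = ⟨x.c || y.c, if x.c then x.a else x.a + y.a⟩ := rfl

instance (A : Type) [Finite A] : Finite (W A) :=
  Finite.of_injective (fun x => (x.c, x.a)) fun _ _ h => W.ext (congrArg Prod.fst h) (congrArg Prod.snd h)

theorem gen : Subsemigroup.closure ({⟨false, 1⟩, ⟨false, -1⟩, ⟨true, 0⟩} : Set (W ℤ)) = ⊤ := by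
  have h : ∀ n : ℤ, (⟨false, n⟩ : W ℤ) ∈
      Subsemigroup.closure ({⟨false, 1⟩, ⟨false, -1⟩, ⟨true, 0⟩} : Set (W ℤ)) := fun n => by
    have h1 := Subsemigroup.subset_closure
      (s := ({⟨false, 1⟩, ⟨false, -1⟩, ⟨true, 0⟩} : Set (W ℤ))) (Or.inl rfl)
    have h2 := Subsemigroup.subset_closure
      (s := ({⟨false, 1⟩, ⟨false, -1⟩, ⟨true, 0⟩} : Set (W ℤ))) (Or.inr (Or.inl rfl))
    induction n using Int.induction_on with
    | zero => exact mul_mem h1 h2
    | succ n ih => exact mul_mem ih h1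
    | pred n ih => exact mul_mem ih h2
  rw [eq_top_iff]
  rintro ⟨_ | _, n⟩ -
  · exact h n
  · simpa [mul_def] using mul_mem (h n) (Subsemigroup.subset_closure (Or.inr (Or.inr rfl)))

def T (n : ℤ) : W ℤ → W ℤ → Prop := phi ⟨false, -n⟩ ⟨false, n⟩
def E (n : ℤ) : W ℤ → W ℤ → Prop := phi ⟨true, n⟩ ⟨true, n⟩

theorem T_iff (n : ℤ) (a b : W ℤ) : T n a b ↔ b = ⟨a.c, if a.c then n + a.a else a.a⟩ := by
  obtain ⟨_ | _, a⟩ := a <;> simp [T, phi, mul_def]

theorem E_iff (n : ℤ) (a b : W ℤ) : E n a b ↔ a = ⟨true, n⟩ ∧ b = ⟨true, n⟩ := by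
  obtain ⟨_ | _, a⟩ := a <;> simp [E, phi, mul_def, eq_comm]

theorem iE (n : ℤ) : Inn (E n) := .gen _ _
theorem iT (n : ℤ) : Inn (T n) := .gen _ _

theorem result : ∃ (S : Type) (_ : Monoid S), (∃ X : Set S, X.Finite ∧ Subsemigroup.closure X = ⊤) ∧
    (∀ x y : S, x ≠ y → ∃ (F : Type) (_ : Semigroup F) (f : S →ₙ* F), Finite F ∧ f x ≠ f y) ∧
    ∃ α β : S → S → Prop, Inn α ∧ Inn β ∧ α ≠ β ∧
      ∀ (F : Type) [Semigroup F] [Finite F] (f : (S → S → Prop) → F),
        (∀ γ δ, Inn γ → Inn δ → f (Relation.Comp γ δ) = f γ * f δ) → f α = f β := by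
  refine ⟨W ℤ, inferInstance, ⟨_, Set.toFinite _, gen⟩, fun x y h => ?_, E 0,
    Relation.Comp (E 0) (E 1), .gen _ _, .comp (.gen _ _) (.gen _ _), fun h => ?_, fun F _ _ f hf => ?_⟩
  · refine ⟨W (ZMod ((x.a - y.a).natAbs + 1)), inferInstance,
      ⟨fun w => ⟨w.c, w.a⟩, fun u v => ?_⟩, inferInstance, fun k => h (W.ext (congrArg W.c k :) ?_)⟩
    · cases hu : u.c <;> simp [mul_def, hu]
    · have h1 := (ZMod.intCast_eq_intCast_iff_dvd_sub _ _ _).1 (congrArg W.a k).symm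
      exact sub_eq_zero.1 (Int.eq_zero_of_dvd_of_natAbs_lt_natAbs h1 (by omega))
  · simpa [E_iff, Relation.Comp] using congrFun (congrFun h ⟨true, 0⟩) ⟨true, 0⟩
  · obtain ⟨n, m, hnm, e⟩ := Finite.exists_ne_map_eq_of_infinite fun n : ℤ => f (E n)
    have h1 : ∀ a b : ℤ, f (E (a + b)) = f (T (-b)) * f (E a) * f (T b) := fun a b => by
      rw [← hf _ _ (iT _) (iE _), ← hf _ _ (.comp (iT _) (iE _)) (iT _)]
      congr 1
      ext ⟨_ | _, u⟩ v <;> simp [Relation.Comp, E_iff, T_iff, add_comm]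
      intro _
      omega
    have h2 : f (E 0) = f (E (m - n)) := by
      rw [← add_neg_cancel n, h1, e, ← h1, sub_eq_add_neg]
    have h3 : Relation.Comp (E 0) (E (m - n)) = Relation.Comp (E 0) (E 1) := by
      ext u v
      simp [Relation.Comp, E_iff, sub_eq_zero, hnm.symm, eq_comm (a := (0 : ℤ))]
    rw [← h3, hf _ _ (iE _) (iE _), ← h2, ← hf _ _ (iE _) (iE _)]
    congr 1
    ext u v
    simp [Relation.Comp, E_iff]

end Pool.Agent.Results.MP_c9edc3_al.NotRF
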